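import Mathlib

set_option autoImplicit false

/-!
# MP_ab9b99_an, Q1: if an `(ℓ, k, d)`-set exists then a self-similar one exists

Given an `(ℓ, k, d)`-set `K`, cut the unit cube into `N ^ d` cubes and let `K'` be the attractor of
the homotheties onto the cubes which meet `K`. Every `k`-plane which meets the unit cube meets `K`,
hence one of these cubes; iterating, it meets `K'`. If `ℓ K'` had interior, then, blowing up by
`N ^ m`, the integer translates of `ℓ K'` would cover the unit cube; but they are close to the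
integer translates of `ℓ K` when `N` is large, and these form a closed set without interior.
-/

open Set Module Pointwise

namespace Pool.Agent.Results.MP_ab9b99_an.SelfSimilar

/-- `ℝ ^ d` -/
abbrev E (d : ℕ) := EuclideanSpace ℝ (Fin d)

/-- `[0, 1] ^ d` -/
def cube (d : ℕ) : Set (E d) := {x | ∀ i, 0 ≤ x i ∧ x i ≤ 1}

/-- `ℓ K = {x₁ + ⋯ + x_ℓ : x_j ∈ K}` -/
def sumset (ℓ : ℕ) {d : ℕ} (K : Set (E d)) : Set (E d) :=
  {x | ∃ y : Fin ℓ → E d, (∀ j, y j ∈ K) ∧ x = ∑ j, y j}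

/-- `(ℓ, k, d)`-sets -/
def IsLKD (ℓ k d : ℕ) (K : Set (E d)) : Prop :=
  IsCompact K ∧ K ⊆ cube d ∧
    (∀ V : AffineSubspace ℝ (E d), finrank ℝ V.direction = k → ((V : Set (E d)) ∩ cube d).Nonempty →
      ((V : Set (E d)) ∩ K).Nonempty) ∧
    IsNowhereDense (sumset ℓ K)

/-- self-similar sets -/
def IsSelfSimilar {d : ℕ} (K : Set (E d)) : Prop :=
  K.Nonempty ∧ IsCompact K ∧ ∃ (m : ℕ) (f : Fin m → E d → E d) (r : Fin m → ℝ),
    (∀ i, 0 < r i ∧ r i < 1) ∧ (∀ i x y, dist (f i x) (f i y) = r i * dist x y) ∧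
      K = ⋃ i, f i '' K

section construction

variable {d : ℕ} (N : ℕ)

/-- integer vector -/
noncomputable def vec (c : Fin d → Fin N) : E d := WithLp.toLp 2 fun i => ((c i : ℕ) : ℝ)

/-- the homothety onto the grid cube -/
noncomputable def fc (c : Fin d → Fin N) (x : E d) : E d := (N : ℝ)⁻¹ • (x + vec N c)

lemma fc_apply (c : Fin d → Fin N) (x : E d) (i : Fin d) :
    fc N c x i = (N : ℝ)⁻¹ * (x i + ((c i : ℕ) : ℝ)) := rfl

lemma fc_cont (c : Fin d → Fin N) : Continuous (fc N c) := by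
  unfold fc
  fun_prop

lemma fc_dist (c : Fin d → Fin N) (x y : E d) : dist (fc N c x) (fc N c y) = (N : ℝ)⁻¹ * dist x y := by
  unfold fc
  rw [dist_smul₀, dist_add_right, Real.norm_eq_abs, abs_of_nonneg (by positivity)]

lemma fc_cube (hN : 0 < N) (c : Fin d → Fin N) {x : E d} (hx : x ∈ cube d) : fc N c x ∈ cube d := by
  intro i
  have h1 := hx i
  have hN' : (0 : ℝ) < N := by exact_mod_cast hN
  have h2 : ((c i : ℕ) : ℝ) + 1 ≤ N := by exact_mod_cast (c i).2
  rw [fc_apply, inv_mul_eq_div]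
  constructor
  · have : (0 : ℝ) ≤ ((c i : ℕ) : ℝ) := by positivity
    exact div_nonneg (by linarith [h1.1]) hN'.le
  · rw [div_le_one hN']
    linarith [h1.2]

variable (K : Set (E d))

/-- the grid cubes which meet `K` -/
def Dig : Set (Fin d → Fin N) := {c | (K ∩ fc N c '' cube d).Nonempty}

/-- the approximations of the attractor -/
def C : ℕ → Set (E d)
  | 0 => cube d
  | n + 1 => ⋃ c : Dig N K, fc N c.1 '' C n

lemma cube_compact : IsCompact (cube d) := by
  have h1 : IsCompact (Set.pi univ fun _ : Fin d => Icc (0 : ℝ) 1) :=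
    isCompact_univ_pi fun _ => isCompact_Icc
  have h2 : cube d = (EuclideanSpace.equiv (Fin d) ℝ).symm '' (Set.pi univ fun _ : Fin d => Icc (0 : ℝ) 1) := by
    ext x
    constructor
    · intro hx
      exact ⟨fun i => x i, fun i _ => hx i, rfl⟩
    · rintro ⟨y, hy, rfl⟩ i
      exact hy i (mem_univ i)
  rw [h2]
  exact h1.image (EuclideanSpace.equiv (Fin d) ℝ).symm.continuous

lemma C_compact (n : ℕ) : IsCompact (C N K n) := by
  induction n with
  | zero => exact cube_compact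
  | succ n ih =>
    show IsCompact (⋃ c : Dig N K, fc N c.1 '' C N K n)
    exact isCompact_iUnion fun c => ih.image (fc_cont N c.1)

lemma C_succ_subset (hN : 0 < N) (n : ℕ) : C N K (n + 1) ⊆ C N K n := by
  induction n with
  | zero =>
    intro x hx
    obtain ⟨c, hc⟩ := mem_iUnion.1 hx
    obtain ⟨y, hy, rfl⟩ := hc
    exact fc_cube N hN c.1 hy
  | succ n ih =>
    intro x hx
    obtain ⟨c, hc⟩ := mem_iUnion.1 hx
    obtain ⟨y, hy, rfl⟩ := hc
    exact mem_iUnion.2 ⟨c, y, ih hy, rfl⟩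

lemma C_anti (hN : 0 < N) : Antitone (C N K) := antitone_nat_of_succ_le (C_succ_subset N K hN)

/-- the attractor -/
def Att : Set (E d) := ⋂ n, C N K n

lemma Att_compact : IsCompact (Att N K) := by
  refine (C_compact N K 0).of_isClosed_subset ?_ (iInter_subset _ 0)
  exact isClosed_iInter fun n => (C_compact N K n).isClosed

lemma Att_eq (hN : 0 < N) : Att N K = ⋃ c : Dig N K, fc N c.1 '' Att N K := by
  have hN' : (N : ℝ) ≠ 0 := by exact_mod_cast hN.ne'
  apply Subset.antisymm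
  · intro x hx
    have hx' := mem_iInter.1 hx
    have h1 : ∃ c : Dig N K, ∀ n, (N : ℝ) • x - vec N c.1 ∈ C N K n := by
      by_contra hcon
      push Not at hcon
      choose n hn using hcon
      obtain ⟨M, hM⟩ := (Set.finite_range n).bddAbove
      obtain ⟨c, hc⟩ := mem_iUnion.1 (hx' (M + 1))
      obtain ⟨y, hy, hyx⟩ := hc
      apply hn c
      have h2 : (N : ℝ) • x - vec N c.1 = y := by
        rw [← hyx]
        unfold fc
        rw [smul_inv_smul₀ hN']
        abel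
      rw [h2]
      exact C_anti N K hN (hM (mem_range_self c)) hy
    obtain ⟨c, hc⟩ := h1
    refine mem_iUnion.2 ⟨c, (N : ℝ) • x - vec N c.1, mem_iInter.2 hc, ?_⟩
    unfold fc
    rw [sub_add_cancel, inv_smul_smul₀ hN']
  · intro x hx
    obtain ⟨c, hc⟩ := mem_iUnion.1 hx
    obtain ⟨y, hy, rfl⟩ := hc
    have hy' := mem_iInter.1 hy
    have h1 : ∀ n, fc N c.1 y ∈ C N K (n + 1) := fun n => mem_iUnion.2 ⟨c, y, hy' n, rfl⟩
    exact mem_iInter.2 fun n => C_succ_subset N K hN n (h1 n)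

/-- grid cubes cover the unit cube -/
lemma exists_cell (hN : 0 < N) {x : E d} (hx : x ∈ cube d) : ∃ c : Fin d → Fin N, x ∈ fc N c '' cube d := by
  have hN' : (0 : ℝ) < N := by exact_mod_cast hN
  have h1 : ∀ i, ∃ c : Fin N, ((c : ℕ) : ℝ) ≤ N * x i ∧ N * x i ≤ ((c : ℕ) : ℝ) + 1 := by
    intro i
    obtain ⟨h0, h1⟩ := hx i
    rcases h1.lt_or_eq with h2 | h2
    · have h3 : ⌊N * x i⌋₊ < N := by
        rw [Nat.floor_lt (by positivity)]
        nlinarith
      exact ⟨⟨⌊N * x i⌋₊, h3⟩, Nat.floor_le (by positivity), (Nat.lt_floor_add_one _).le⟩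
    · refine ⟨⟨N - 1, by omega⟩, ?_, ?_⟩
      · rw [h2]
        push_cast [Nat.cast_sub hN]
        linarith
      · rw [h2]
        push_cast [Nat.cast_sub hN]
        linarith
  choose c hc using h1
  refine ⟨c, WithLp.toLp 2 fun i => N * x i - ((c i : ℕ) : ℝ), fun i => ?_, ?_⟩
  · have := hc i
    constructor
    · show 0 ≤ N * x i - ((c i : ℕ) : ℝ)
      linarith [this.1]
    · show N * x i - ((c i : ℕ) : ℝ) ≤ 1
      linarith [this.2]
  · ext i
    rw [fc_apply]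
    show (N : ℝ)⁻¹ * (N * x i - ((c i : ℕ) : ℝ) + ((c i : ℕ) : ℝ)) = x i
    field_simp
    ring

variable {K}

lemma hits (hN : 0 < N) (hKc : K ⊆ cube d) {k : ℕ}
    (hK : ∀ V : AffineSubspace ℝ (E d), finrank ℝ V.direction = k →
      ((V : Set (E d)) ∩ cube d).Nonempty → ((V : Set (E d)) ∩ K).Nonempty) (n : ℕ) :
    ∀ V : AffineSubspace ℝ (E d), finrank ℝ V.direction = k →
      ((V : Set (E d)) ∩ cube d).Nonempty → ((V : Set (E d)) ∩ C N K n).Nonempty := by
  induction n with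
  | zero => intro V _ h; exact h
  | succ n ih =>
    intro V hV hne
    obtain ⟨p, hpV, hpK⟩ := hK V hV hne
    obtain ⟨c, hc⟩ := exists_cell N hN (hKc hpK)
    have hcD : c ∈ Dig N K := ⟨p, hpK, hc⟩
    obtain ⟨q, hq, hqp⟩ := hc
    set V' : AffineSubspace ℝ (E d) := AffineSubspace.mk' q V.direction with hV'
    have hdir : V'.direction = V.direction := AffineSubspace.direction_mk' q V.direction
    obtain ⟨x, hxV, hxC⟩ := ih V' (by rw [hdir]; exact hV) ⟨q, AffineSubspace.self_mem_mk' _ _, hq⟩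
    refine ⟨fc N c x, ?_, mem_iUnion.2 ⟨⟨c, hcD⟩, x, hxC, rfl⟩⟩
    have h1 : x -ᵥ q ∈ V.direction := AffineSubspace.mem_mk'.1 hxV
    have h2 : fc N c x = (N : ℝ)⁻¹ • (x -ᵥ q) +ᵥ p := by
      rw [← hqp]
      unfold fc
      rw [vsub_eq_sub, vadd_eq_add, ← smul_add]
      congr 1
      abel
    rw [h2]
    exact AffineSubspace.vadd_mem_of_mem_direction (V.direction.smul_mem _ h1) hpV

lemma hits_att (hN : 0 < N) (hKc : K ⊆ cube d) {k : ℕ}
    (hK : ∀ V : AffineSubspace ℝ (E d), finrank ℝ V.direction = k →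
      ((V : Set (E d)) ∩ cube d).Nonempty → ((V : Set (E d)) ∩ K).Nonempty)
    (V : AffineSubspace ℝ (E d)) (hV : finrank ℝ V.direction = k)
    (hne : ((V : Set (E d)) ∩ cube d).Nonempty) : ((V : Set (E d)) ∩ Att N K).Nonempty := by
  have hVc : IsClosed (V : Set (E d)) := AffineSubspace.closed_of_finiteDimensional V
  obtain ⟨x, hx⟩ := IsCompact.nonempty_iInter_of_sequence_nonempty_isCompact_isClosed
    (fun n => (V : Set (E d)) ∩ C N K n)
    (fun n x hx => ⟨hx.1, C_succ_subset N K hN n hx.2⟩)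
    (fun n => hits N hN hKc hK n V hV hne)
    ((C_compact N K 0).inter_left hVc)
    (fun n => hVc.inter (C_compact N K n).isClosed)
  rw [mem_iInter] at hx
  exact ⟨x, (hx 0).1, mem_iInter.2 fun n => (hx n).2⟩

/-- `ℤ ^ d` -/
def ZZ (d : ℕ) : Set (E d) := {v | ∀ i, ∃ n : ℤ, v i = n}

lemma ZZ_closed : IsClosed (ZZ d) := by
  have : ZZ d = ⋂ i : Fin d, (fun v : E d => v i) ⁻¹' (range ((↑) : ℤ → ℝ)) := by
    ext v
    simp only [ZZ, mem_ofPred_eq, mem_iInter, mem_preimage, mem_range]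
    exact ⟨fun h i => (h i).imp fun n hn => hn.symm, fun h i => (h i).imp fun n hn => hn.symm⟩
  rw [this]
  refine isClosed_iInter fun i => ?_
  exact Int.isClosedEmbedding_coe_real.isClosed_range.preimage (by fun_prop)

lemma att_digits (hN : 0 < N) (m : ℕ) : ∀ x ∈ Att N K, ∃ s ∈ ZZ d, ∃ y ∈ Att N K,
    x = ((N : ℝ) ^ m)⁻¹ • (s + y) := by
  have hN' : (N : ℝ) ≠ 0 := by exact_mod_cast hN.ne'
  induction m with
  | zero =>
    intro x hx
    exact ⟨0, fun i => ⟨0, by simp⟩, x, hx, by simp⟩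
  | succ m ih =>
    intro x hx
    rw [Att_eq N K hN] at hx
    obtain ⟨c, hc⟩ := mem_iUnion.1 hx
    obtain ⟨y, hy, rfl⟩ := hc
    obtain ⟨s, hs, z, hz, hyz⟩ := ih y hy
    refine ⟨s + (N : ℝ) ^ m • vec N c.1, ?_, z, hz, ?_⟩
    · intro i
      obtain ⟨n, hn⟩ := hs i
      refine ⟨n + N ^ m * (c.1 i : ℕ), ?_⟩
      show s i + (N : ℝ) ^ m * (((c.1 i : ℕ)) : ℝ) = _
      rw [hn]
      push_cast
      ring
    · unfold fc
      rw [hyz]
      ext i
      show (N : ℝ)⁻¹ * (((N : ℝ) ^ m)⁻¹ * (s i + z i) + (((c.1 i : ℕ)) : ℝ))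
        = ((N : ℝ) ^ (m + 1))⁻¹ * (s i + (N : ℝ) ^ m * (((c.1 i : ℕ)) : ℝ) + z i)
      field_simp
      ring

lemma norm_le_of_coord {x : E d} {b : ℝ} (hb : 0 ≤ b) (h : ∀ i, |x i| ≤ b) : ‖x‖ ≤ d * b := by
  rw [EuclideanSpace.norm_eq]
  have h1 : ∑ i, ‖x i‖ ^ 2 ≤ (d * b) ^ 2 := by
    have h2 : ∑ i : Fin d, ‖x i‖ ^ 2 ≤ ∑ _i : Fin d, b ^ 2 := by
      apply Finset.sum_le_sum
      intro i _
      rw [Real.norm_eq_abs]
      exact pow_le_pow_left₀ (abs_nonneg _) (h i) 2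
    rw [Finset.sum_const, Finset.card_univ, Fintype.card_fin, nsmul_eq_mul] at h2
    refine h2.trans ?_
    rw [mul_pow]
    have h3 : (d : ℝ) ≤ (d : ℝ) ^ 2 := by
      rcases Nat.eq_zero_or_pos d with h0 | h0
      · rw [h0]; simp
      · have : (1 : ℝ) ≤ d := by exact_mod_cast h0
        nlinarith
    exact mul_le_mul_of_nonneg_right h3 (by positivity)
  calc Real.sqrt (∑ i, ‖x i‖ ^ 2) ≤ Real.sqrt ((d * b) ^ 2) := Real.sqrt_le_sqrt h1
    _ = d * b := Real.sqrt_sq (by positivity)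

/-- points of the attractor are close to `K` -/
lemma att_near (hN : 0 < N) {x : E d} (hx : x ∈ Att N K) : ∃ y ∈ K, ‖x - y‖ ≤ d * (N : ℝ)⁻¹ := by
  have hN' : (0 : ℝ) < N := by exact_mod_cast hN
  obtain ⟨c, hc⟩ := mem_iUnion.1 (mem_iInter.1 hx 1)
  obtain ⟨u, hu, rfl⟩ := hc
  obtain ⟨y, hyK, v, hv, rfl⟩ := c.2
  refine ⟨_, hyK, norm_le_of_coord (by positivity) fun i => ?_⟩
  show |fc N c.1 u i - fc N c.1 v i| ≤ _
  rw [fc_apply, fc_apply, ← mul_sub, abs_mul, abs_of_pos (by positivity : 0 < (N : ℝ)⁻¹)]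
  have h1 := hu i
  have h2 := hv i
  have h3 : |u i + ((c.1 i : ℕ) : ℝ) - (v i + ((c.1 i : ℕ) : ℝ))| ≤ 1 := by
    rw [abs_le]
    constructor <;> linarith [h1.1, h1.2, h2.1, h2.2]
  calc (N : ℝ)⁻¹ * |u i + ((c.1 i : ℕ) : ℝ) - (v i + ((c.1 i : ℕ) : ℝ))| ≤ (N : ℝ)⁻¹ * 1 := by gcongr
    _ = (N : ℝ)⁻¹ := mul_one _

lemma sumset_compact (ℓ : ℕ) (hK : IsCompact K) : IsCompact (sumset ℓ K) := by
  have h1 : IsCompact (Set.pi univ fun _ : Fin ℓ => K) := isCompact_univ_pi fun _ => hK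
  have h2 : sumset ℓ K = (fun y : Fin ℓ → E d => ∑ j, y j) '' (Set.pi univ fun _ : Fin ℓ => K) := by
    ext x
    constructor
    · rintro ⟨y, hy, rfl⟩
      exact ⟨y, fun j _ => hy j, rfl⟩
    · rintro ⟨y, hy, rfl⟩
      exact ⟨y, fun j => hy j (mem_univ j), rfl⟩
  rw [h2]
  exact h1.image (by fun_prop)

end construction

lemma exists_cube_nonempty {d : ℕ} {ℓ : ℕ} {K : Set (E d)} (hK : IsCompact K)
    (hnd : IsNowhereDense (sumset ℓ K)) :
    ∃ p ∈ cube d, ∃ ε : ℝ, 0 < ε ∧ ∀ v ∈ ZZ d, ∀ w ∈ sumset ℓ K, ε ≤ ‖p - (v + w)‖ := by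
  classical
  have hclosed : IsClosed (ZZ d + sumset ℓ K) := ZZ_closed.add_right_of_isCompact (sumset_compact ℓ hK)
  -- Baire
  have hcl : IsClosed (sumset ℓ K) := (sumset_compact ℓ hK).isClosed
  have hint : interior (sumset ℓ K) = ∅ := by
    have := hnd
    rwa [IsNowhereDense, hcl.closure_eq] at this
  let tr : (Fin d → ℤ) → E d := fun n => WithLp.toLp 2 fun i => (n i : ℝ)
  have hdense : Dense (⋂ n : Fin d → ℤ, ((fun x => x - tr n) ⁻¹' (sumset ℓ K))ᶜ) := by
    apply dense_iInter_of_isOpen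
    · intro n
      exact (hcl.preimage (by fun_prop)).isOpen_compl
    · intro n
      rw [← interior_eq_empty_iff_dense_compl]
      have h1 : (fun x => x - tr n) = (Homeomorph.subRight (tr n)) := rfl
      rw [h1, ← Homeomorph.preimage_interior, hint, preimage_empty]
  have hopen : IsOpen {x : E d | ∀ i, 0 < x i ∧ x i < 1} := by
    have he : {x : E d | ∀ i, 0 < x i ∧ x i < 1} = ⋂ i, (fun x : E d => x i) ⁻¹' Ioo 0 1 := by
      ext x
      simp only [mem_iInter, mem_preimage, mem_Ioo]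
      exact Iff.rfl
    rw [he]
    exact isOpen_iInter_of_finite fun i => isOpen_Ioo.preimage (by fun_prop)
  obtain ⟨p, hp1, hp2⟩ := hdense.inter_open_nonempty _ hopen
    ⟨WithLp.toLp 2 fun _ => 1 / 2, fun i => ⟨by norm_num, by norm_num⟩⟩
  have hpn : p ∉ ZZ d + sumset ℓ K := by
    rintro ⟨v, hv, w, hw, hvw⟩
    choose n hn using hv
    have h1 := mem_iInter.1 hp2 n
    apply h1
    have h2 : tr n = v := by
      ext i; exact (hn i).symm
    show p - tr n ∈ sumset ℓ K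
    rw [h2, ← hvw]
    simpa using hw
  obtain ⟨ε, hε, hball⟩ := Metric.isOpen_iff.1 hclosed.isOpen_compl p hpn
  refine ⟨p, fun i => ⟨(hp1 i).1.le, (hp1 i).2.le⟩, ε, hε, fun v hv w hw => ?_⟩
  by_contra hcon
  rw [not_le] at hcon
  have : v + w ∈ Metric.ball p ε := by
    rw [Metric.mem_ball, dist_comm, dist_eq_norm]
    exact hcon
  exact hball this ⟨v, hv, w, hw, rfl⟩

/-- **Q1.** If an `(ℓ, k, d)`-set exists then a self-similar `(ℓ, k, d)`-set exists. -/
theorem result : ∀ ℓ k d : ℕ, 0 < ℓ → 0 < k → 0 < d → k ≤ d →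
    (∃ K : Set (E d), IsLKD ℓ k d K) → ∃ K : Set (E d), IsLKD ℓ k d K ∧ IsSelfSimilar K := by
  classical
  rintro ℓ k d hℓ hk hd hkd ⟨K, hKcomp, hKcube, hKhit, hKnd⟩
  obtain ⟨p, hp, ε, hε, hfar⟩ := exists_cube_nonempty hKcomp hKnd
  -- choice of `N`
  obtain ⟨N, hN⟩ := exists_nat_gt (max 1 (ℓ * d / ε))
  have hN1 : (1 : ℝ) < N := (le_max_left _ _).trans_lt hN
  have hN2 : ℓ * d / ε < N := (le_max_right _ _).trans_lt hN
  have hN0 : 0 < N := by
    have : (0 : ℝ) < N := by linarith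
    exact_mod_cast this
  have hNpos : (0 : ℝ) < N := by linarith
  -- a `k`-plane through the origin
  obtain ⟨W, hW⟩ : ∃ W : Submodule ℝ (E d), finrank ℝ W = k := by
    have h1 : k ≤ finrank ℝ (E d) := by
      rw [finrank_euclideanSpace, Fintype.card_fin]; exact hkd
    obtain ⟨v, hv⟩ := exists_linearIndependent_of_le_finrank h1
    exact ⟨Submodule.span ℝ (range v), by rw [finrank_span_eq_card hv, Fintype.card_fin]⟩
  have hzero : (0 : E d) ∈ cube d := fun i => ⟨le_refl _, zero_le_one⟩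
  obtain ⟨x0, -, hx0⟩ := hits_att N hN0 hKcube hKhit (AffineSubspace.mk' 0 W)
    (by rw [AffineSubspace.direction_mk']; exact hW) ⟨0, AffineSubspace.self_mem_mk' _ _, hzero⟩
  refine ⟨Att N K, ⟨Att_compact N K, iInter_subset _ 0,
    fun V hV hne => hits_att N hN0 hKcube hKhit V hV hne, ?_⟩, ⟨x0, hx0⟩, Att_compact N K, ?_⟩
  · -- the sumset is nowhere dense
    have hcl : IsClosed (sumset ℓ (Att N K)) := (sumset_compact ℓ (Att_compact N K)).isClosed
    rw [IsNowhereDense, hcl.closure_eq]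
    by_contra hne
    rw [← ne_eq, ← nonempty_iff_ne_empty] at hne
    obtain ⟨q, hq⟩ := hne
    obtain ⟨ρ, hρ, hball⟩ := Metric.isOpen_iff.1 isOpen_interior q hq
    obtain ⟨m, hm⟩ := pow_unbounded_of_one_lt (d / ρ) hN1
    have hNm : (0 : ℝ) < (N : ℝ) ^ m := by positivity
    let u : E d := WithLp.toLp 2 fun i => (⌊(N : ℝ) ^ m * q i⌋ : ℝ)
    have hmem : ((N : ℝ) ^ m)⁻¹ • (u + p) ∈ sumset ℓ (Att N K) := by
      apply interior_subset
      apply hball
      rw [Metric.mem_ball, dist_eq_norm]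
      have h1 : ‖((N : ℝ) ^ m)⁻¹ • (u + p) - q‖ ≤ d * ((N : ℝ) ^ m)⁻¹ := by
        apply norm_le_of_coord (by positivity)
        intro i
        show |((N : ℝ) ^ m)⁻¹ * ((⌊(N : ℝ) ^ m * q i⌋ : ℝ) + p i) - q i| ≤ _
        have h2 : ((N : ℝ) ^ m)⁻¹ * ((⌊(N : ℝ) ^ m * q i⌋ : ℝ) + p i) - q i
            = ((N : ℝ) ^ m)⁻¹ * ((⌊(N : ℝ) ^ m * q i⌋ : ℝ) + p i - (N : ℝ) ^ m * q i) := by
          field_simp
        rw [h2, abs_mul, abs_of_pos (by positivity : 0 < ((N : ℝ) ^ m)⁻¹)]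
        have h3 := Int.floor_le ((N : ℝ) ^ m * q i)
        have h4 := Int.lt_floor_add_one ((N : ℝ) ^ m * q i)
        have h5 := hp i
        have h6 : |(⌊(N : ℝ) ^ m * q i⌋ : ℝ) + p i - (N : ℝ) ^ m * q i| ≤ 1 := by
          rw [abs_le]
          constructor <;> linarith [h5.1, h5.2]
        calc _ ≤ ((N : ℝ) ^ m)⁻¹ * 1 := by gcongr
          _ = _ := mul_one _
      refine h1.trans_lt ?_
      rw [← div_eq_mul_inv, div_lt_iff₀ hNm]
      rw [div_lt_iff₀ hρ] at hm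
      linarith
    obtain ⟨y, hy, hsum⟩ := hmem
    choose s hs z hz hyz using fun j => att_digits N hN0 m (y j) (hy j)
    choose w hw hwz using fun j => att_near N hN0 (hz j)
    have hpe : p = (∑ j, s j - u) + ∑ j, z j := by
      have h1 : u + p = ∑ j, s j + ∑ j, z j := by
        have h2 : u + p = (N : ℝ) ^ m • ∑ j, y j := by
          rw [← hsum, smul_inv_smul₀ hNm.ne']
        rw [h2, Finset.smul_sum, ← Finset.sum_add_distrib]
        apply Finset.sum_congr rfl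
        intro j _
        rw [hyz j, smul_inv_smul₀ hNm.ne']
      have h3 : p = (u + p) - u := by abel
      rw [h3, h1]
      abel
    have hv : ∑ j, s j - u ∈ ZZ d := by
      intro i
      choose n hn using fun j => hs j i
      refine ⟨∑ j, n j - ⌊(N : ℝ) ^ m * q i⌋, ?_⟩
      have h1 : (∑ j, s j) i = ∑ j, s j i := by
        simp
      show (∑ j, s j) i - (⌊(N : ℝ) ^ m * q i⌋ : ℝ) = _
      rw [h1]
      push_cast
      congr 1
      exact Finset.sum_congr rfl fun j _ => hn j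
    have h1 := hfar _ hv (∑ j, w j) ⟨w, hw, rfl⟩
    have h2 : p - (∑ j, s j - u + ∑ j, w j) = ∑ j, (z j - w j) := by
      rw [Finset.sum_sub_distrib]
      nth_rewrite 1 [hpe]
      abel
    rw [h2] at h1
    have h3 : ‖∑ j, (z j - w j)‖ ≤ ℓ * (d * (N : ℝ)⁻¹) := by
      refine (norm_sum_le _ _).trans ?_
      refine (Finset.sum_le_sum fun j _ => hwz j).trans ?_
      rw [Finset.sum_const, Finset.card_univ, Fintype.card_fin, nsmul_eq_mul]
    have h4 : ℓ * (d * (N : ℝ)⁻¹) < ε := by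
      rw [div_lt_iff₀ hε] at hN2
      rw [← mul_assoc, ← div_eq_mul_inv, div_lt_iff₀ hNpos]
      linarith
    linarith
  · -- self-similarity
    let e := Fintype.equivFin (Dig N K)
    refine ⟨Fintype.card (Dig N K), fun i => fc N (e.symm i).1, fun _ => (N : ℝ)⁻¹,
      fun _ => ⟨by positivity, inv_lt_one_of_one_lt₀ hN1⟩, fun i x y => fc_dist N _ x y, ?_⟩
    rw [e.symm.surjective.iUnion_comp (fun c : Dig N K => fc N c.1 '' Att N K)]
    exact Att_eq N K hN0

end Pool.Agent.Results.MP_ab9b99_an.SelfSimilar
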